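import Pool.Agent.Q161.ESN.Stm2
import Pool.Agent.Q299.ESM.Cnt

/-!
# Project ESN, job CNF: the number of the allowed classes, several places
-/

set_option autoImplicit false
set_option linter.unusedSectionVars false

namespace Pool.Agent.Q285.ESN

open Finset
open Pool.Agent.Q161.ESM (Vm NS EqF IsSub Semi S_KEY S_LCU S_LCT)
open Pool.Agent.Q161.ESN (AbF S_CNF)

/-! ### a product close to one -/

lemma prod_exp {ι : Type} (Q : Finset ι) (a : ι → ℝ) : |∏ p ∈ Q, (1 + a p) - 1| ≤ (∑ p ∈ Q, |a p|) * Real.exp (∑ p ∈ Q, |a p|) := by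
  classical
  induction Q using Finset.induction_on with
  | empty => simp
  | insert i Q hi ih =>
    rw [prod_insert hi, sum_insert hi]
    obtain ⟨P, hP⟩ : ∃ P, P = ∏ p ∈ Q, (1 + a p) := ⟨_, rfl⟩
    obtain ⟨s, hs⟩ : ∃ s, s = ∑ p ∈ Q, |a p| := ⟨_, rfl⟩
    rw [← hP, ← hs] at ih ⊢
    have hs0 : 0 ≤ s := by
      rw [hs]
      exact sum_nonneg fun _ _ => abs_nonneg _
    have h1 : (1 + a i) * P - 1 = (1 + a i) * (P - 1) + a i := by ring
    have ha0 := abs_nonneg (a i)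
    have he1 : 1 + |a i| ≤ Real.exp |a i| := by linarith [Real.add_one_le_exp |a i|]
    have he2 : 1 ≤ Real.exp s := Real.one_le_exp hs0
    have h2 : |(1 + a i) * (P - 1)| ≤ Real.exp |a i| * (s * Real.exp s) := by
      rw [abs_mul]
      refine mul_le_mul ?_ ih (abs_nonneg _) (Real.exp_pos _).le
      refine (abs_add_le _ _).trans ?_
      rw [abs_one]
      exact he1
    rw [h1]
    refine (abs_add_le _ _).trans ?_
    rw [Real.exp_add]
    have h3 : |a i| ≤ |a i| * (Real.exp |a i| * Real.exp s) := by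
      have : 1 ≤ Real.exp |a i| * Real.exp s := by nlinarith
      nlinarith
    nlinarith

lemma prod_est {ι : Type} (Q : Finset ι) (a : ι → ℝ) :
    |∏ p ∈ Q, (1 + a p) - 1 - ∑ p ∈ Q, a p| ≤ (∑ p ∈ Q, |a p|) ^ 2 * Real.exp (∑ p ∈ Q, |a p|) := by
  classical
  induction Q using Finset.induction_on with
  | empty => simp
  | insert i Q hi ih =>
    have h0 := prod_exp Q a
    rw [prod_insert hi, sum_insert hi, sum_insert hi]
    obtain ⟨P, hP⟩ : ∃ P, P = ∏ p ∈ Q, (1 + a p) := ⟨_, rfl⟩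
    obtain ⟨s, hs⟩ : ∃ s, s = ∑ p ∈ Q, |a p| := ⟨_, rfl⟩
    obtain ⟨t, ht⟩ : ∃ t, t = ∑ p ∈ Q, a p := ⟨_, rfl⟩
    rw [← hP, ← hs, ← ht] at ih
    rw [← hP, ← hs] at h0
    rw [← hP, ← hs, ← ht]
    have hs0 : 0 ≤ s := by
      rw [hs]
      exact sum_nonneg fun _ _ => abs_nonneg _
    have h1 : (1 + a i) * P - 1 - (a i + t) = (P - 1 - t) + a i * (P - 1) := by ring
    rw [h1]
    refine (abs_add_le _ _).trans ?_
    rw [abs_mul]
    have ha0 := abs_nonneg (a i)
    have h2 : |a i| * |P - 1| ≤ |a i| * (s * Real.exp s) := mul_le_mul_of_nonneg_left h0 ha0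
    have h3 : (s ^ 2 + |a i| * s) * Real.exp s ≤ (|a i| + s) ^ 2 * Real.exp (|a i| + s) := by
      refine mul_le_mul (by nlinarith) (Real.exp_le_exp.2 (by linarith)) (Real.exp_pos _).le (by positivity)
    linarith

/-! ### one place -/

section place

variable {k V G : Type} [Field k] [AddCommGroup V] [Fintype V] [Group G] [DistribMulAction G V]

open Classical in
/-- the functions without zeros in `VS`, and those with one zero in `J` and given characters -/
def AA (l : ℕ) (F : G) (VS : Finset V) (z : V → k) (ξ : V → (V →+ ZMod 2) → k) (J : Finset V) : Set (V → k) :=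
  {c : V → k | EqF l (fun s => F • s) c ∧ (∀ s, s ∉ VS → c s = z s) ∧ ∀ s ∈ VS, c s ≠ 0} ∪
    ⋃ t ∈ J, {c : V → k | EqF l (fun s => F • s) c ∧
      (∀ s, s ∉ VS → c s = z s) ∧ c t = 0 ∧ (∀ s, s ≠ t → c s ≠ 0) ∧
      ∀ φ : V →+ ZMod 2, (∀ s, φ (F • s) = φ s) →
        (∏ s ∈ univ.filter (fun s => φ (s - t) ≠ 0), c s) ^ ((l - 1) / 2) = ξ t φ}

theorem place (hU : S_LCU) (hT : S_LCT) (h2 : ∀ v : V, v + v = 0) [Fintype k] {l f : ℕ} (hlp : l.Prime) (hl2 : l ≠ 2)
    (hcard : Fintype.card k = l ^ f) (F : G) (hFf : F ^ f = 1) (VS : Finset V) (hVne : 0 < VS.card) (hst : ∀ s, s ∈ VS ↔ F • s ∈ VS)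
    (z : V → k) (ξ : V → (V →+ ZMod 2) → k) (J : Finset V) (hJ : ∀ t ∈ J, t ∈ VS ∧ F • t = t) (M : ℝ) (hM : 0 < M)
    (hNS : ∀ t ∈ J, M ≤ NS (fun s => F • s) (VS : Set V) t) (N r : ℝ)
    (hN : ({s | s ∈ VS ∧ F • s = s}.ncard : ℝ) = N) (hr : (J.card : ℝ) / M ≤ r) :
    ((AA l F VS z ξ J).ncard : ℝ) ≤ (l : ℝ) ^ VS.card * (1 + (-(N - r) / l + (Fintype.card V : ℝ) ^ 2 / (l : ℝ) ^ 2)) := by
  classical
  have hl' : (0 : ℝ) < l := by exact_mod_cast hlp.pos
  have hbij : Function.Bijective (fun s : V => F • s) := MulAction.bijective F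
  have hNc : ((VS.filter (fun s => F • s = s)).card : ℝ) = N := by
    rw [← hN, ← Set.ncard_coe_finset]
    congr 2
    ext s
    simp
  have hA0 := hU k V l hlp (fun s => F • s) hbij VS hst z
  rw [hNc] at hA0
  have hA1 : ∀ t ∈ J, (({c : V → k | EqF l (fun s => F • s) c ∧
      (∀ s, s ∉ VS → c s = z s) ∧ c t = 0 ∧ (∀ s, s ≠ t → c s ≠ 0) ∧
      ∀ φ : V →+ ZMod 2, (∀ s, φ (F • s) = φ s) →
        (∏ s ∈ univ.filter (fun s => φ (s - t) ≠ 0), c s) ^ ((l - 1) / 2) = ξ t φ}.ncard : ℕ) : ℝ) ≤ (l : ℝ) ^ (VS.card - 1) / M := by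
    intro t ht
    have hq := hT k V l f hlp hl2 hcard h2 (DistribSMul.toAddMonoidHom V F) hbij
      (by
        intro s
        have e1 : ∀ m : ℕ, (⇑(DistribSMul.toAddMonoidHom V F))^[m] s = F ^ m • s := by
          intro m
          induction m with
          | zero => simp
          | succ m ih =>
            rw [Function.iterate_succ_apply', ih, pow_succ', mul_smul]
            rfl
        rw [e1, hFf, one_smul])
      VS hst z t (hJ t ht).1 (hJ t ht).2 (ξ t)
    rw [le_div_iff₀ hM]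
    refine le_trans ?_ hq
    exact mul_le_mul_of_nonneg_left (hNS t ht) (Nat.cast_nonneg _)
  have hc1 : (AA l F VS z ξ J).ncard ≤ {c : V → k | EqF l (fun s => F • s) c ∧ (∀ s, s ∉ VS → c s = z s) ∧ ∀ s ∈ VS, c s ≠ 0}.ncard +
      ∑ t ∈ J, {c : V → k | EqF l (fun s => F • s) c ∧
      (∀ s, s ∉ VS → c s = z s) ∧ c t = 0 ∧ (∀ s, s ≠ t → c s ≠ 0) ∧
      ∀ φ : V →+ ZMod 2, (∀ s, φ (F • s) = φ s) →
        (∏ s ∈ univ.filter (fun s => φ (s - t) ≠ 0), c s) ^ ((l - 1) / 2) = ξ t φ}.ncard := by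
    unfold AA
    refine le_trans (Set.ncard_union_le _ _) ?_
    refine Nat.add_le_add_left ?_ _
    exact Finset.set_ncard_biUnion_le J _
  have hc2 : ((AA l F VS z ξ J).ncard : ℝ) ≤ (({c : V → k | EqF l (fun s => F • s) c ∧ (∀ s, s ∉ VS → c s = z s) ∧ ∀ s ∈ VS, c s ≠ 0}.ncard : ℕ) : ℝ) +
      ∑ t ∈ J, (({c : V → k | EqF l (fun s => F • s) c ∧
      (∀ s, s ∉ VS → c s = z s) ∧ c t = 0 ∧ (∀ s, s ≠ t → c s ≠ 0) ∧
      ∀ φ : V →+ ZMod 2, (∀ s, φ (F • s) = φ s) →
        (∏ s ∈ univ.filter (fun s => φ (s - t) ≠ 0), c s) ^ ((l - 1) / 2) = ξ t φ}.ncard : ℕ) : ℝ) := by exact_mod_cast hc1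
  have hc3 := Finset.sum_le_card_nsmul J _ _ hA1
  rw [nsmul_eq_mul] at hc3
  obtain ⟨m, hm⟩ : ∃ m, VS.card = m + 1 := ⟨VS.card - 1, by omega⟩
  have hc4 : (J.card : ℝ) * ((l : ℝ) ^ (VS.card - 1) / M) ≤ (l : ℝ) ^ VS.card * (r / l) := by
    have e1 : (J.card : ℝ) * ((l : ℝ) ^ (VS.card - 1) / M) = (l : ℝ) ^ m * (J.card / M) := by
      rw [hm, Nat.add_sub_cancel]
      ring
    have e2 : (l : ℝ) ^ VS.card * (r / l) = (l : ℝ) ^ m * r := by
      rw [hm, pow_succ]
      field_simp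
    rw [e1, e2]
    exact mul_le_mul_of_nonneg_left hr (by positivity)
  have e3 : (l : ℝ) ^ VS.card * (1 + (-(N - r) / l + (Fintype.card V : ℝ) ^ 2 / (l : ℝ) ^ 2)) =
      (l : ℝ) ^ VS.card * (1 - N / l + (Fintype.card V : ℝ) ^ 2 / (l : ℝ) ^ 2) + (l : ℝ) ^ VS.card * (r / l) := by ring
  rw [e3]
  linarith

end place

/-! ### all places -/

section all

variable {P ι V G : Type} [Fintype P] [Fintype ι] {k : P → Type} [∀ p, Field (k p)] [AddCommGroup V] [Fintype V] [Group G]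
  [DistribMulAction G V] {n : ι → ℕ} {l d : ℕ} {q : P → ℕ} {φ : P → G} {orb : V → ι} {R : Vm n l → (p : P) → V → k p}
  {Om : Set (Vm n l)}

/-- the constant -/
noncomputable def cA (v : ℝ) (d : ℕ) : ℝ := d * v ^ 2 + (d * (v + 1 + v ^ 2)) ^ 2 * Real.exp (d * (v + 1 + v ^ 2))

lemma q_pos (h : AbF n l d q φ orb R Om) (p : P) : l ≤ q p := by
  rcases h.dich p with h1 | h1
  · exact h1.ge
  · exact le_trans (by nlinarith [h.lp.pos]) h1

lemma fin_k (h : AbF n l d q φ orb R Om) (p : P) : Finite (k p) := by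
  obtain ⟨f, -, hf, -⟩ := h.fin p
  refine Nat.finite_of_card_ne_zero ?_
  rw [hf]
  exact pow_ne_zero _ (by have := q_pos h p; have := h.lp.pos; omega)

lemma card_P (h : AbF n l d q φ orb R Om) : Fintype.card P ≤ d := by
  have h1 : ∏ _p : P, l ≤ ∏ p : P, q p := prod_le_prod' fun p _ => q_pos h p
  rw [h.prod, prod_const, card_univ] at h1
  exact (Nat.pow_le_pow_iff_right h.lp.one_lt).1 h1

open Classical in
lemma sum_n (h : AbF n l d q φ orb R Om) (S : Finset ι) : ∑ i ∈ S, n i = d * (univ.filter fun s : V => orb s ∈ S).card := by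
  rw [Finset.card_eq_sum_card_fiberwise (f := orb) (t := S) (by intro s hs; simpa using hs), mul_sum]
  refine Finset.sum_congr rfl fun i hi => ?_
  rw [← h.nn i]
  congr 2
  ext s
  simp only [mem_filter, mem_univ, true_and]
  constructor
  · intro h
    exact ⟨h ▸ hi, h⟩
  · exact fun h => h.2

open Classical in
theorem master (h : AbF n l d q φ orb R Om) (S : Finset ι) (z : Vm n l) (x : P → ℝ) (As : (p : P) → Set (V → k p))
    (hA : ∀ y ∈ Om, (∀ i, i ∉ S → y i = z i) → ∀ p, R y p ∈ As p)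
    (h1 : ∀ p, q p = l → ((As p).ncard : ℝ) ≤ (l : ℝ) ^ (univ.filter fun s : V => orb s ∈ S).card *
      (1 + (-x p / l + (Fintype.card V : ℝ) ^ 2 / (l : ℝ) ^ 2)))
    (h2 : ∀ p, q p ≠ l → (As p).ncard ≤ q p ^ (univ.filter fun s : V => orb s ∈ S).card)
    (hx : ∀ p, |x p| ≤ Fintype.card V + 1) :
    (({y | y ∈ Om ∧ ∀ i, i ∉ S → y i = z i}.ncard : ℕ) : ℝ) / (l : ℝ) ^ (∑ i ∈ S, n i) ≤
      1 - (∑ p ∈ univ.filter (fun p => q p = l), x p) / l + cA (Fintype.card V) d / (l : ℝ) ^ 2 := by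
  have hl1 : (1 : ℝ) ≤ l := by exact_mod_cast h.lp.one_lt.le
  have hl0 : (0 : ℝ) < l := by linarith
  obtain ⟨v, hv⟩ : ∃ v : ℝ, v = Fintype.card V := ⟨_, rfl⟩
  have hv0 : 0 ≤ v := by
    rw [hv]
    exact Nat.cast_nonneg _
  obtain ⟨m, hm⟩ : ∃ m : ℕ, m = (univ.filter fun s : V => orb s ∈ S).card := ⟨_, rfl⟩
  obtain ⟨a, ha⟩ : ∃ a : P → ℝ, a = fun p => -x p / l + v ^ 2 / (l : ℝ) ^ 2 := ⟨_, rfl⟩
  rw [sum_n h S, ← hm, ← hv]
  rw [← hm, ← hv] at h1
  rw [← hm] at h2
  rw [← hv] at hx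
  -- the count
  have hfin : ∀ p, Finite (k p) := fin_k h
  have : Fact l.Prime := ⟨h.lp⟩
  have hcount : {y | y ∈ Om ∧ ∀ i, i ∉ S → y i = z i}.ncard ≤ ∏ p, (As p).ncard := by
    rw [← Set.ncard_image_of_injective _ h.inj]
    have e1 : (Set.pi Set.univ As).ncard = ∏ p, (As p).ncard := by
      rw [← Nat.card_coe_set_eq, Nat.card_congr (Equiv.Set.univPi As), Nat.card_pi]
      exact prod_congr rfl fun p _ => Nat.card_coe_set_eq _
    rw [← e1]
    refine Set.ncard_le_ncard ?_ (Set.toFinite _)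
    rintro c ⟨y, ⟨hy1, hy2⟩, rfl⟩ p _
    exact hA y hy1 hy2 p
  have hb : ∀ p, ((As p).ncard : ℝ) ≤ (q p : ℝ) ^ m * (if q p = l then 1 + a p else 1) := by
    intro p
    by_cases hp : q p = l
    · rw [if_pos hp, hp, ha]
      exact h1 p hp
    · rw [if_neg hp, mul_one]
      exact_mod_cast h2 p hp
  have hprod : ((∏ p, (As p).ncard : ℕ) : ℝ) ≤ (l : ℝ) ^ (d * m) * ∏ p ∈ univ.filter (fun p => q p = l), (1 + a p) := by
    push_cast
    refine (prod_le_prod (fun p _ => Nat.cast_nonneg _) fun p _ => hb p).trans (le_of_eq ?_)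
    rw [prod_mul_distrib, prod_pow, ← prod_filter]
    congr 1
    have e1 : ((∏ p, q p : ℕ) : ℝ) = (l : ℝ) ^ d := by
      rw [h.prod]
      push_cast
      rfl
    push_cast at e1
    rw [e1, ← pow_mul]
  have hc : (({y | y ∈ Om ∧ ∀ i, i ∉ S → y i = z i}.ncard : ℕ) : ℝ) / (l : ℝ) ^ (d * m) ≤ ∏ p ∈ univ.filter (fun p => q p = l), (1 + a p) := by
    rw [div_le_iff₀ (by positivity), mul_comm]
    exact (Nat.cast_le.2 hcount).trans hprod
  refine hc.trans ?_
  -- the product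
  have hab : ∀ p, |a p| ≤ (v + 1 + v ^ 2) / l := by
    intro p
    rw [ha]
    refine (abs_add_le _ _).trans ?_
    rw [abs_div, abs_neg, abs_of_pos hl0, abs_of_nonneg (by positivity : 0 ≤ v ^ 2 / (l : ℝ) ^ 2), add_div]
    refine add_le_add (div_le_div_of_nonneg_right (hx p) hl0.le) ?_
    refine div_le_div_of_nonneg_left (by positivity) hl0 (by nlinarith)
  have hcardQ : ((univ.filter (fun p => q p = l)).card : ℝ) ≤ d := by
    exact_mod_cast (card_le_univ _).trans (card_P h)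
  obtain ⟨s, hs⟩ : ∃ s : ℝ, s = ∑ p ∈ univ.filter (fun p => q p = l), |a p| := ⟨_, rfl⟩
  have hs0 : 0 ≤ s := by
    rw [hs]
    exact sum_nonneg fun _ _ => abs_nonneg _
  have hsle : s ≤ d * (v + 1 + v ^ 2) / l := by
    rw [hs]
    have e1 := sum_le_card_nsmul (univ.filter (fun p => q p = l)) (fun p => |a p|) ((v + 1 + v ^ 2) / l) fun p _ => hab p
    rw [nsmul_eq_mul] at e1
    refine e1.trans ?_
    rw [mul_div_assoc]
    exact mul_le_mul_of_nonneg_right hcardQ (by positivity)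
  have hsle2 : s ≤ d * (v + 1 + v ^ 2) := hsle.trans (div_le_self (by positivity) hl1)
  have hest := (abs_le.1 (prod_est (univ.filter (fun p => q p = l)) a)).2
  rw [← hs] at hest
  have hsum : ∑ p ∈ univ.filter (fun p => q p = l), a p ≤ -(∑ p ∈ univ.filter (fun p => q p = l), x p) / l + d * v ^ 2 / (l : ℝ) ^ 2 := by
    rw [ha, sum_add_distrib, ← sum_div, sum_neg_distrib, sum_const, nsmul_eq_mul, mul_div_assoc]
    have : ((univ.filter (fun p => q p = l)).card : ℝ) * (v ^ 2 / (l : ℝ) ^ 2) ≤ d * (v ^ 2 / (l : ℝ) ^ 2) :=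
      mul_le_mul_of_nonneg_right hcardQ (by positivity)
    linarith
  have hexp : s ^ 2 * Real.exp s ≤ (d * (v + 1 + v ^ 2)) ^ 2 * Real.exp (d * (v + 1 + v ^ 2)) / (l : ℝ) ^ 2 := by
    have e1 : s ^ 2 ≤ (d * (v + 1 + v ^ 2) / l) ^ 2 := pow_le_pow_left₀ hs0 hsle 2
    rw [div_pow] at e1
    have e2 : Real.exp s ≤ Real.exp (d * (v + 1 + v ^ 2)) := Real.exp_le_exp.2 hsle2
    calc s ^ 2 * Real.exp s ≤ ((d * (v + 1 + v ^ 2)) ^ 2 / (l : ℝ) ^ 2) * Real.exp (d * (v + 1 + v ^ 2)) :=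
          mul_le_mul e1 e2 (Real.exp_pos _).le (by positivity)
      _ = _ := by ring
  have hfinal : cA v d / (l : ℝ) ^ 2 = d * v ^ 2 / (l : ℝ) ^ 2 + (d * (v + 1 + v ^ 2)) ^ 2 * Real.exp (d * (v + 1 + v ^ 2)) / (l : ℝ) ^ 2 := by
    unfold cA
    rw [add_div]
  rw [hfinal]
  have e4 : -(∑ p ∈ univ.filter (fun p => q p = l), x p) / (l : ℝ) = -((∑ p ∈ univ.filter (fun p => q p = l), x p) / l) := neg_div _ _
  rw [e4] at hsum
  linarith

open Classical in
theorem core (hU : S_LCU) (hT : S_LCT) (h2 : ∀ v : V, v + v = 0) (h : AbF n l d q φ orb R Om) (S : Finset ι) (hS : S.Nonempty)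
    (z : Vm n l) (J : P → Finset V) (M r : P → ℝ)
    (hJ1 : ∀ p, q p = l → ∀ y ∈ Om, (∀ i, i ∉ S → y i = z i) → ∀ t, R y p t = 0 → t ∈ J p)
    (hJ2 : ∀ p, q p = l → ∀ t ∈ J p, orb t ∈ S ∧ φ p • t = t) (hM : ∀ p, 0 < M p)
    (hNS : ∀ p, q p = l → ∀ t ∈ J p, M p ≤ NS (fun s => φ p • s) {s : V | orb s ∈ S} t)
    (hr : ∀ p, ((J p).card : ℝ) / M p ≤ r p) (hr0 : ∀ p, 0 ≤ r p) (hr1 : ∀ p, r p ≤ 1) :
    (({y | y ∈ Om ∧ ∀ i, i ∉ S → y i = z i}.ncard : ℕ) : ℝ) / (l : ℝ) ^ (∑ i ∈ S, n i) ≤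
      1 - (∑ p ∈ univ.filter (fun p => q p = l),
        (((univ.filter (fun s : V => orb s ∈ S ∧ φ p • s = s)).card : ℝ) - r p)) / l + cA (Fintype.card V) d / (l : ℝ) ^ 2 := by
  obtain ⟨VS, hVS⟩ : ∃ VS : Finset V, VS = univ.filter fun s : V => orb s ∈ S := ⟨_, rfl⟩
  have hmem : ∀ s, s ∈ VS ↔ orb s ∈ S := by
    intro s
    rw [hVS]
    simp
  have hcoe : (VS : Set V) = {s : V | orb s ∈ S} := by
    ext s
    simp [hmem]
  have hVne : 0 < VS.card := by
    obtain ⟨i, hi⟩ := hS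
    obtain ⟨s, hs⟩ := h.sur i
    exact Finset.card_pos.2 ⟨s, (hmem s).2 (hs ▸ hi)⟩
  have horb : ∀ (g : G) (s : V), orb (g • s) = orb s := fun g s => ((h.orbG s (g • s)).2 ⟨g, rfl⟩).symm
  have hst : ∀ (g : G) (s : V), s ∈ VS ↔ g • s ∈ VS := by
    intro g s
    rw [hmem, hmem, horb]
  have hagree : ∀ y : Vm n l, (∀ i, i ∉ S → y i = z i) → ∀ p, ∀ s, s ∉ VS → R y p s = R z p s := by
    intro y hy p s hs
    exact h.cmp y z s (hy _ (by rwa [hmem] at hs)) p
  have hxi : ∃ ξ : (p : P) → V → (V →+ ZMod 2) → k p, ∀ p, q p = l → ∀ t, ∀ y ∈ Om, R y p t = 0 →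
      ∀ χ : V →+ ZMod 2, (∀ s, χ (φ p • s) = χ s) →
      (∏ s ∈ univ.filter (fun s => χ (s - t) ≠ 0), R y p s) ^ ((l - 1) / 2) = ξ p t χ := by
    have h1 : ∀ p, ∃ ξ : V → (V →+ ZMod 2) → k p, q p = l → ∀ t, ∀ y ∈ Om, R y p t = 0 →
      ∀ χ : V →+ ZMod 2, (∀ s, χ (φ p • s) = χ s) →
      (∏ s ∈ univ.filter (fun s => χ (s - t) ≠ 0), R y p s) ^ ((l - 1) / 2) = ξ t χ := by
      intro p
      by_cases hp : q p = l
      · choose ξ hξ using h.xi p hp
        exact ⟨ξ, fun _ => hξ⟩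
      · exact ⟨fun _ _ => 0, fun hp' => absurd hp' hp⟩
    choose ξ hξ using h1
    exact ⟨ξ, hξ⟩
  obtain ⟨ξ, hξ⟩ := hxi
  have hfin : ∀ p, Finite (k p) := fin_k h
  refine master h S z (fun p => ((univ.filter (fun s : V => orb s ∈ S ∧ φ p • s = s)).card : ℝ) - r p)
    (fun p => if q p = l then AA l (φ p) VS (R z p) (ξ p) (J p) else
      {c : V → k p | EqF (q p) (fun s => φ p • s) c ∧ ∀ s, s ∉ VS → c s = R z p s}) ?_ ?_ ?_ ?_
  · intro y hy hyz p
    have hE : EqF (q p) (fun s => φ p • s) (R y p) := fun s => h.eqf y p s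
    by_cases hp : q p = l
    · rw [if_pos hp]
      rw [hp] at hE
      by_cases h0 : ∀ s, R y p s ≠ 0
      · left
        exact ⟨hE, hagree y hyz p, fun s _ => h0 s⟩
      · right
        push Not at h0
        obtain ⟨t, ht⟩ := h0
        simp only [Set.mem_iUnion]
        refine ⟨t, hJ1 p hp y hy hyz t ht, hE, hagree y hyz p, ht, (h.om y hy p hp t ht).2, ?_⟩
        intro χ hχ
        exact hξ p hp t y hy ht χ hχ
    · rw [if_neg hp]
      exact ⟨hE, hagree y hyz p⟩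
  · intro p hp
    simp only [if_pos hp]
    obtain ⟨f, -, hf1, hf2⟩ := h.fin p
    have : Fintype (k p) := Fintype.ofFinite _
    rw [Nat.card_eq_fintype_card, hp] at hf1
    have h1 := place hU hT h2 h.lp h.l2 hf1 (φ p) hf2 VS hVne (hst (φ p)) (R z p) (ξ p) (J p)
      (fun t ht => ⟨(hmem t).2 (hJ2 p hp t ht).1, (hJ2 p hp t ht).2⟩) (M p) (hM p)
      (by
        intro t ht
        rw [hcoe]
        exact hNS p hp t ht)
      ((univ.filter (fun s : V => orb s ∈ S ∧ φ p • s = s)).card : ℝ) (r p)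
      (by
        rw [← Set.ncard_coe_finset]
        congr 2
        ext s
        simp [hmem]) (hr p)
    rw [hVS] at h1
    rw [hVS]
    exact h1
  · intro p hp
    simp only [if_neg hp]
    have h3 := Pool.Agent.Q299.ESM.cnt (k := k p) (q p) (F := fun s : V => φ p • s) (MulAction.injective (φ p))
      ((h.lp.two_le).trans (q_pos h p)) VS.card VS rfl (hst (φ p)) (R z p)
    rw [← hVS]
    exact h3
  · intro p
    have h1 : ((univ.filter (fun s : V => orb s ∈ S ∧ φ p • s = s)).card : ℝ) ≤ Fintype.card V := by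
      exact_mod_cast card_le_univ _
    have h2 : (0 : ℝ) ≤ ((univ.filter (fun s : V => orb s ∈ S ∧ φ p • s = s)).card : ℝ) := Nat.cast_nonneg _
    rw [abs_le]
    constructor
    · linarith [hr1 p]
    · linarith [hr0 p]

end all

/-! ### the statement -/

theorem cnf : S_KEY → S_LCU → S_LCT → S_CNF := by
  classical
  intro hKEY hU hT V G _ _ _ _ h2 hsemi hinv d
  refine ⟨cA (Fintype.card V) d, 1 / ((Fintype.card V : ℝ) + 1), by positivity, ?_⟩
  intro P ι _ _ k _ n l q φ orb R Om h S z hS hz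
  obtain ⟨VS, hVS⟩ : ∃ VS : Finset V, VS = univ.filter fun s : V => orb s ∈ S := ⟨_, rfl⟩
  have hmem : ∀ s, s ∈ VS ↔ orb s ∈ S := by
    intro s
    rw [hVS]
    simp
  have hcoe : (VS : Set V) = {s : V | orb s ∈ S} := by
    ext s
    simp [hmem]
  have hVne : 0 < VS.card := by
    obtain ⟨i, hi⟩ := hS
    obtain ⟨s, hs⟩ := h.sur i
    exact Finset.card_pos.2 ⟨s, (hmem s).2 (hs ▸ hi)⟩
  have hVne' : (0 : ℝ) < VS.card := by exact_mod_cast hVne
  have horb : ∀ (g : G) (s : V), orb (g • s) = orb s := fun g s => ((h.orbG s (g • s)).2 ⟨g, rfl⟩).symm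
  have hGst : ∀ g : G, ∀ s ∈ {s : V | orb s ∈ S}, g • s ∈ {s : V | orb s ∈ S} := by
    intro g s hs
    have hs' : orb s ∈ S := hs
    have h3 : orb (g • s) ∈ S := by
      rw [horb]
      exact hs'
    exact h3
  -- a type of an allowed class is a fixed point in VS
  have htyp : ∀ p, q p = l → ∀ y ∈ Om, (∀ i, i ∉ S → y i = z i) → ∀ t, R y p t = 0 → orb t ∈ S ∧ φ p • t = t := by
    intro p hp y hy hyz t ht
    constructor
    · by_contra hcon
      have := h.cmp y z t (hyz _ hcon) p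
      exact hz t hcon p (by rw [← this, ht])
    · exact (h.om y hy p hp t ht).1
  have hkey := fun (p : P) (t : V) (ht : orb t ∈ S) (hf : φ p • t = t) => hKEY G V h2 hsemi hinv {s : V | orb s ∈ S} hGst (φ p) t ht hf
  have hncard : ∀ p, {s | s ∈ {s : V | orb s ∈ S} ∧ φ p • s = s}.ncard = (univ.filter fun s : V => orb s ∈ S ∧ φ p • s = s).card := by
    intro p
    rw [← Set.ncard_coe_finset]
    congr 1
    ext s
    simp
  have hcardV : ({s : V | orb s ∈ S}.ncard : ℝ) = VS.card := by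
    rw [← hcoe, Set.ncard_coe_finset]
  have hcardle' : (VS.card : ℝ) ≤ Fintype.card V := by exact_mod_cast Finset.card_le_univ VS
  have hone : ∀ p, φ p = 1 → (univ.filter fun s : V => orb s ∈ S ∧ φ p • s = s) = VS := by
    intro p hp
    ext s
    simp [hmem, hp]
  -- the standard choice
  obtain ⟨J0, hJ0⟩ : ∃ J0 : P → Finset V, J0 = fun p => univ.filter fun s : V => orb s ∈ S ∧ φ p • s = s := ⟨_, rfl⟩
  obtain ⟨M0, hM0⟩ : ∃ M0 : P → ℝ, M0 = fun p => max 1 ((J0 p).card : ℝ) := ⟨_, rfl⟩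
  have hM0p : ∀ p, 0 < M0 p := by
    intro p
    rw [hM0]
    positivity
  have hJ0m : ∀ p t, t ∈ J0 p ↔ orb t ∈ S ∧ φ p • t = t := by
    intro p t
    rw [hJ0]
    simp
  have hNS0 : ∀ p, ∀ t ∈ J0 p, M0 p ≤ NS (fun s => φ p • s) {s : V | orb s ∈ S} t := by
    intro p t ht
    have h1 := (hJ0m p t).1 ht
    have h3 := (hkey p t h1.1 h1.2).1
    rw [hncard] at h3
    have h4 : 1 ≤ (J0 p).card := Finset.card_pos.2 ⟨t, ht⟩
    rw [hM0]
    simp only
    rw [max_eq_right (by exact_mod_cast h4)]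
    rw [hJ0]
    exact (Nat.cast_le (α := ℝ)).2 h3
  have hr0 : ∀ p, ((J0 p).card : ℝ) / M0 p ≤ 1 := by
    intro p
    rw [div_le_one (hM0p p), hM0]
    exact le_max_right _ _
  have hκ1 : (1 : ℝ) / ((Fintype.card V : ℝ) + 1) ≤ 1 := by
    rw [div_le_one (by positivity)]
    have : (0 : ℝ) ≤ Fintype.card V := Nat.cast_nonneg _
    linarith
  have hκ0 : (0 : ℝ) < 1 / ((Fintype.card V : ℝ) + 1) := by positivity
  obtain ⟨κ, hκ⟩ : ∃ κ : ℝ, κ = 1 / ((Fintype.card V : ℝ) + 1) := ⟨_, rfl⟩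
  rw [← hκ] at hκ1 hκ0 ⊢
  -- the last step
  have hlast : ∀ (p0 : P) (r : P → ℝ), q p0 = l → (∀ p, r p ≤ 1) → r p0 ≤ 1 - κ →
      (∑ p ∈ univ.filter (fun p => q p = l),
        (((univ.filter (fun s : V => orb s ∈ S ∧ φ p • s = s)).card : ℝ) - 1)) + κ ≤
      ∑ p ∈ univ.filter (fun p => q p = l),
        (((univ.filter (fun s : V => orb s ∈ S ∧ φ p • s = s)).card : ℝ) - r p) := by
    intro p0 r hp0 hr hr2
    have hm0 : p0 ∈ univ.filter (fun p => q p = l) := by simp [hp0]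
    rw [← Finset.add_sum_erase _ _ hm0, ← Finset.add_sum_erase _ (fun p => (((univ.filter (fun s : V => orb s ∈ S ∧ φ p • s = s)).card : ℝ) - r p)) hm0]
    have h5 : ∑ p ∈ (univ.filter (fun p => q p = l)).erase p0,
        (((univ.filter (fun s : V => orb s ∈ S ∧ φ p • s = s)).card : ℝ) - 1) ≤
        ∑ p ∈ (univ.filter (fun p => q p = l)).erase p0,
        (((univ.filter (fun s : V => orb s ∈ S ∧ φ p • s = s)).card : ℝ) - r p) :=
      sum_le_sum fun p _ => by linarith [hr p]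
    linarith
  have hl0 : (0 : ℝ) < l := by exact_mod_cast h.lp.pos
  refine ⟨?_, ?_, ?_⟩
  · exact core hU hT h2 h S hS z J0 M0 (fun _ => 1)
      (fun p hp y hy hyz t ht => (hJ0m p t).2 (htyp p hp y hy hyz t ht))
      (fun p hp t ht => (hJ0m p t).1 ht) hM0p (fun p _ => hNS0 p) hr0 (fun _ => zero_le_one) (fun _ => le_rfl)
  · intro hP hsub
    have hne : Nonempty P := by
      by_contra hcon
      rw [not_nonempty_iff] at hcon
      have h3 := h.prod
      rw [Finset.univ_eq_empty, Finset.prod_empty] at h3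
      have h4 : l ^ 1 ≤ l ^ d := Nat.pow_le_pow_right h.lp.pos h.d0
      rw [pow_one, ← h3] at h4
      exact absurd h.lp.one_lt (not_lt.2 h4)
    obtain ⟨p0⟩ := hne
    have hr5 : ((VS.card : ℝ)) / ((VS.card : ℝ) + 1) ≤ 1 - κ := by
      have : (VS.card : ℝ) / (VS.card + 1) = 1 - 1 / ((VS.card : ℝ) + 1) := by field_simp; ring
      rw [this, hκ]
      have := one_div_le_one_div_of_le (by positivity : (0:ℝ) < (VS.card : ℝ) + 1)
        (by linarith : (VS.card : ℝ) + 1 ≤ (Fintype.card V : ℝ) + 1)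
      linarith
    have hc := core hU hT h2 h S hS z (fun _ => VS) (fun _ => (VS.card : ℝ) + 1) (fun _ => 1 - κ)
      (fun p hp y hy hyz t ht => (hmem t).2 (htyp p hp y hy hyz t ht).1)
      (fun p hp t ht => ⟨(hmem t).1 ht, by rw [(hP p).2, one_smul]⟩)
      (fun _ => by positivity)
      (by
        intro p hp t ht
        have h3 := (hkey p t ((hmem t).1 ht) (by rw [(hP p).2, one_smul])).2 (by intro s; rw [(hP p).2, one_smul]) hsub
        have h4 := (Nat.cast_le (α := ℝ)).2 h3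
        rw [Nat.cast_add, Nat.cast_one, hcardV] at h4
        exact h4)
      (fun _ => hr5) (fun _ => by linarith) (fun _ => by linarith)
    refine hc.trans ?_
    have h6 := hlast p0 (fun _ => 1 - κ) (hP p0).1 (fun _ => by linarith) le_rfl
    have h7 := div_le_div_of_nonneg_right h6 hl0.le
    linarith
  · intro hP hsub p0 hinc
    have h0 : (0 : V) ∈ VS := (hmem 0).2 hsub.1
    have hr5 : ((VS.erase 0).card : ℝ) / (VS.card : ℝ) ≤ 1 - κ := by
      have h7 : ((VS.erase 0).card : ℝ) = VS.card - 1 := by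
        rw [card_erase_of_mem h0, Nat.cast_sub hVne]
        simp
      rw [h7]
      have : ((VS.card : ℝ) - 1) / VS.card = 1 - 1 / (VS.card : ℝ) := by field_simp
      rw [this, hκ]
      have := one_div_le_one_div_of_le hVne'
        (by linarith : (VS.card : ℝ) ≤ (Fintype.card V : ℝ) + 1)
      linarith
    have hr6 : ((VS.card : ℝ)) / (VS.card : ℝ) ≤ 1 := by
      rw [div_self hVne'.ne']
    have hNS6 : ∀ p t, t ∈ VS → (VS.card : ℝ) ≤ NS (fun s => φ p • s) {s : V | orb s ∈ S} t := by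
      intro p t ht
      have h3 := (hkey p t ((hmem t).1 ht) (by rw [(hP p).2, one_smul])).1
      rw [hncard, hone p (hP p).2] at h3
      exact (Nat.cast_le (α := ℝ)).2 h3
    have hc := core hU hT h2 h S hS z (fun p => if p = p0 then VS.erase 0 else VS) (fun _ => (VS.card : ℝ)) (fun p => if p = p0 then 1 - κ else 1)
      (by
        intro p hp y hy hyz t ht
        by_cases hpp : p = p0
        · subst hpp
          simp only [if_true]
          rw [mem_erase]
          refine ⟨?_, (hmem t).2 (htyp p hp y hy hyz t ht).1⟩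
          rintro rfl
          exact hinc y hy hyz ht
        · rw [if_neg hpp]
          exact (hmem t).2 (htyp p hp y hy hyz t ht).1)
      (by
        intro p hp t ht
        have ht' : t ∈ VS := by
          split_ifs at ht
          · exact (mem_erase.1 ht).2
          · exact ht
        exact ⟨(hmem t).1 ht', by rw [(hP p).2, one_smul]⟩)
      (fun _ => hVne')
      (by
        intro p hp t ht
        have ht' : t ∈ VS := by
          split_ifs at ht
          · exact (mem_erase.1 ht).2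
          · exact ht
        exact hNS6 p t ht')
      (by
        intro p
        by_cases hpp : p = p0
        · simp only [if_pos hpp]
          exact hr5
        · simp only [if_neg hpp]
          exact hr6)
      (by
        intro p
        split_ifs <;> linarith)
      (by
        intro p
        split_ifs <;> linarith)
    refine hc.trans ?_
    have h6 := hlast p0 (fun p => if p = p0 then 1 - κ else 1) (hP p0).1
      (by
        intro p
        split_ifs <;> linarith) (by simp)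
    have h7 := div_le_div_of_nonneg_right h6 hl0.le
    linarith

end Pool.Agent.Q285.ESN
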